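import Pool.Agent.Helper45.LinK.GoalsN

/-! # Packet FB: the (0,1) derivative of the second fundamental form along the fibres -/

open Complex Metric Set Filter Topology MeasureTheory
open scoped ContDiff ComplexConjugate ComplexOrder Manifold

namespace Pool.Agent.Helper57.LinK

open Pool.Agent.Helper45.LinK Pool.Agent.Helper95.Lin Pool.Agent.Helper16.Abund
  Pool.Agent.Helper92.Orb

section calculus

variable {n : ℕ} {E : Type} [NormedAddCommGroup E] [NormedSpace ℂ E]

theorem dzb_congr {f g : Cn n → E} {x : Cn n} (h : f =ᶠ[𝓝 x] g) (e : Cn n) :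
    dzb e f x = dzb e g x := by
  unfold dzb
  rw [h.fderiv_eq]

theorem dz_congr {f g : Cn n → E} {x : Cn n} (h : f =ᶠ[𝓝 x] g) (e : Cn n) :
    dz e f x = dz e g x := by
  unfold dz
  rw [h.fderiv_eq]

theorem dzb_sub' {f g : Cn n → E} {x : Cn n} (hf : DifferentiableAt ℝ f x)
    (hg : DifferentiableAt ℝ g x) (e : Cn n) :
    dzb e (fun y => f y - g y) x = dzb e f x - dzb e g x := by
  unfold dzb
  rw [fderiv_fun_sub hf hg]
  simp only [sub_apply, smul_sub]
  abel

theorem dzb_sum {ι : Type} (s : Finset ι) {f : ι → Cn n → E} {x : Cn n}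
    (hf : ∀ i ∈ s, DifferentiableAt ℝ (f i) x) (e : Cn n) :
    dzb e (fun y => ∑ i ∈ s, f i y) x = ∑ i ∈ s, dzb e (f i) x := by
  unfold dzb
  rw [fderiv_fun_sum hf]
  simp only [sum_apply, Finset.smul_sum, Finset.sum_add_distrib]

theorem dzb_mul' {f g : Cn n → ℂ} {x : Cn n} (hf : DifferentiableAt ℝ f x)
    (hg : DifferentiableAt ℝ g x) (e : Cn n) :
    dzb e (fun y => f y * g y) x = f x * dzb e g x + dzb e f x * g x := by
  unfold dzb
  rw [fderiv_fun_mul hf hg]
  simp only [add_apply, smul_apply, smul_eq_mul]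
  ring

theorem dzb_mul_const' {f : Cn n → ℂ} {x : Cn n} (hf : DifferentiableAt ℝ f x) (c : ℂ)
    (e : Cn n) : dzb e (fun y => f y * c) x = dzb e f x * c := by
  unfold dzb
  rw [fderiv_mul_const hf c]
  simp only [smul_apply, smul_eq_mul]
  ring

/-- `dzb` commutes with continuous linear maps. -/
theorem dzb_clm {G : Type} [NormedAddCommGroup G] [NormedSpace ℂ G] (L : E →L[ℂ] G)
    {f : Cn n → E} {x : Cn n} (hf : DifferentiableAt ℝ f x) (e : Cn n) :
    dzb e (fun y => L (f y)) x = L (dzb e f x) := by
  unfold dzb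
  have h1 : HasFDerivAt (fun y => L (f y)) ((L.restrictScalars ℝ).comp (fderiv ℝ f x)) x :=
    (L.restrictScalars ℝ).hasFDerivAt.comp x hf.hasFDerivAt
  rw [h1.fderiv]
  simp only [ContinuousLinearMap.comp_apply, ContinuousLinearMap.coe_restrictScalars', map_add,
    map_smul]

end calculus

section

variable {b k : ℕ}

theorem vert_smul (c : ℂ) (u : Cn k) : (vert (c • u) : Cn (b + k)) = c • vert u := by
  funext i
  refine Fin.addCases (fun i => ?_) (fun i => ?_) i <;> simp [vert]

/-- Product rule for the Hermitian form. -/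
theorem dzb_hermi {M : Set (Cn (b + k))}
    {H : Cn (b + k) → Matrix (Fin (b + k)) (Fin (b + k)) ℂ} (hH : Met M H) {v : Cn (b + k)}
    (hv : v ∈ M) (f : Cn (b + k) → Cn k) (hf : DifferentiableAt ℝ f v) (e ζ : Cn (b + k)) :
    dzb e (fun x => hermi (H x) (vert (f x)) ζ) v =
      hermi (H v) (vert (dzb e f v)) ζ + dzb e (fun x => hermi (H x) (vert (f v)) ζ) v := by
  have hHd : ∀ i j, DifferentiableAt ℝ (fun x => H x i j) v := fun i j =>
    ((hH.smooth i j).contDiffAt (hH.isOpen.mem_nhds hv)).differentiableAt (by simp)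
  have hvd : ∀ i, DifferentiableAt ℝ (fun x => (vert (f x) : Cn (b + k)) i) v := by
    intro i
    refine Fin.addCases (fun i => ?_) (fun i => ?_) i
    · simp [vert]
    · simp only [vert, Fin.append_right]
      exact (differentiableAt_pi.1 hf) i
  have hvd' : ∀ i, dzb e (fun x => (vert (f x) : Cn (b + k)) i) v =
      (vert (dzb e f v) : Cn (b + k)) i := by
    intro i
    refine Fin.addCases (fun i => ?_) (fun i => ?_) i
    · simp [vert, dzb]
    · simp only [vert, Fin.append_right]
      exact dzb_clm (ContinuousLinearMap.proj (R := ℂ) (φ := fun _ : Fin k => ℂ) i) hf e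
  unfold hermi
  have hd : ∀ i j, DifferentiableAt ℝ
      (fun x => H x i j * (vert (f x) : Cn (b + k)) i * conj (ζ j)) v := fun i j =>
    ((hHd i j).mul (hvd i)).mul_const _
  have hd' : ∀ i j, DifferentiableAt ℝ
      (fun x => H x i j * (vert (f v) : Cn (b + k)) i * conj (ζ j)) v := fun i j =>
    ((hHd i j).mul_const _).mul_const _
  rw [dzb_sum _ fun i _ => DifferentiableAt.fun_sum fun j _ => hd i j,
    dzb_sum _ fun i _ => DifferentiableAt.fun_sum fun j _ => hd' i j, ← Finset.sum_add_distrib]
  refine Finset.sum_congr rfl fun i _ => ?_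
  rw [dzb_sum _ fun j _ => hd i j, dzb_sum _ fun j _ => hd' i j, ← Finset.sum_add_distrib]
  refine Finset.sum_congr rfl fun j _ => ?_
  have hp : DifferentiableAt ℝ (fun x => H x i j * (vert (f x) : Cn (b + k)) i) v :=
    (hHd i j).mul (hvd i)
  have hp' : DifferentiableAt ℝ (fun x => H x i j * (vert (f v) : Cn (b + k)) i) v :=
    (hHd i j).mul_const _
  rw [dzb_mul_const' hp, dzb_mul' (hHd i j) (hvd i), hvd', dzb_mul_const' hp',
    dzb_mul_const' (hHd i j)]
  ring

end

/-- The (0,1) derivative vanishes along the fibres. -/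
theorem dzb_vert_gen {E : Type} [NormedAddCommGroup E] [NormedSpace ℂ E] (hCRE : S_CRE) {b k : ℕ}
    {N : Cn (b + k) → E} {v : Cn (b + k)} (hNd : DifferentiableAt ℝ N v)
    (hol : DifferentiableAt ℂ (fun w : Cn k => N (Fin.append (base v) w)) (fib v)) (y : Cn k) :
    dzb (vert y) N v = 0 := by
  have hve : Fin.append (base v) (fib v) = v := by
    funext i
    refine Fin.addCases (fun i => ?_) (fun i => ?_) i <;> simp [base, fib]
  -- the inclusion of the fibre
  let L : Cn k →L[ℝ] Cn (b + k) := LinearMap.toContinuousLinearMap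
    { toFun := fun u => vert u
      map_add' := by
        intro u u'
        funext i
        refine Fin.addCases (fun i => ?_) (fun i => ?_) i <;> simp [vert]
      map_smul' := by
        intro c u
        funext i
        refine Fin.addCases (fun i => ?_) (fun i => ?_) i <;> simp [vert] }
  have hL : ∀ u, L u = vert u := fun u => rfl
  have hio : (fun w : Cn k => (Fin.append (base v) w : Cn (b + k))) =
      fun w => L w + Fin.append (base v) 0 := by
    funext w
    rw [hL]
    funext i
    refine Fin.addCases (fun i => ?_) (fun i => ?_) i <;> simp [vert]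
  have hder : HasFDerivAt (fun w : Cn k => (Fin.append (base v) w : Cn (b + k))) L (fib v) := by
    rw [hio]
    exact L.hasFDerivAt.add_const _
  have hcomp : HasFDerivAt (fun w : Cn k => N (Fin.append (base v) w)) ((fderiv ℝ N v).comp L)
      (fib v) := by
    have h1 : HasFDerivAt N (fderiv ℝ N v) (Fin.append (base v) (fib v)) := by
      rw [hve]
      exact hNd.hasFDerivAt
    exact h1.comp (fib v) hder
  have h0 := ((hCRE (fun w : Cn k => N (Fin.append (base v) w)) (fib v)).1 hol y).1
  unfold dzb at h0 ⊢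
  rw [hcomp.fderiv] at h0
  simp only [ContinuousLinearMap.comp_apply, hL, vert_smul] at h0
  exact h0

/-- Differentiability of the composition with a continuous linear map. -/
theorem diff_clm {n : ℕ} {E : Type} [NormedAddCommGroup E] [NormedSpace ℂ E] {G : Type}
    [NormedAddCommGroup G] [NormedSpace ℂ G] (L : E →L[ℂ] G)
    {f : Cn n → E} {x : Cn n} (hf : DifferentiableAt ℝ f x) :
    DifferentiableAt ℝ (fun y => L (f y)) x :=
  (L.restrictScalars ℝ).differentiableAt.comp x hf

/-- The (0,1) derivative of the Christoffel form vanishes along the fibres. -/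
theorem dzb_vert (hCRE : S_CRE) {b k : ℕ} {D : Set (Cn b)} (hD : IsOpen (tubeK D k))
    {N : Cn (b + k) → Cn k →L[ℂ] CE k} (hN : ContDiffOn ℝ ∞ N (tubeK D k))
    (hol : ∀ z ∈ D, Differentiable ℂ fun w : Cn k => N (Fin.append z w))
    {v : Cn (b + k)} (hv : v ∈ tubeK D k) (y : Cn k) : dzb (vert y) N v = 0 :=
  dzb_vert_gen hCRE ((hN.contDiffAt (hD.mem_nhds hv)).differentiableAt (by simp))
    ((hol _ hv) (fib v)) y

theorem fb (hSYM : S_SYM) (hCOMM : S_COMM) (hCRE : S_CRE) : S_FB := by
  intro b k D H N hH hN hol v hv u u' y η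
  have hM := hH.isOpen
  have hMv : tubeK D k ∈ 𝓝 v := hM.mem_nhds hv
  -- smoothness
  have hs : ∀ ξ ζ : Cn (b + k), ContDiffOn ℝ ∞ (fun x => hermi (H x) ξ ζ) (tubeK D k) := by
    intro ξ ζ
    unfold hermi
    exact ContDiffOn.sum fun i _ => ContDiffOn.sum fun j _ =>
      ((hH.smooth i j).mul contDiffOn_const).mul contDiffOn_const
  have hNat : ContDiffAt ℝ ∞ N v := hN.smooth.contDiffAt hMv
  have hNd : DifferentiableAt ℝ N v := hNat.differentiableAt (by simp)
  -- the constant evaluation map
  let ev : (Cn k →L[ℂ] CE k) →L[ℂ] Cn k :=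
    (ContinuousLinearMap.apply ℂ (Cn k) u').comp (ContinuousLinearMap.apply ℂ (CE k) u)
  have hev : ∀ T : Cn k →L[ℂ] CE k, ev T = T u u' := fun T => rfl
  have hNud' : DifferentiableAt ℝ (fun x => ev (N x)) v :=
    diff_clm (E := Cn k →L[ℂ] CE k) (G := Cn k) (L := ev) (f := N) (x := v) hNd
  have hNud : DifferentiableAt ℝ (fun x => N x u u') v := hNud'
  have hNu : ∀ e, dzb e (fun x => N x u u') v = dzb e N v u u' := fun e =>
    dzb_clm (E := Cn k →L[ℂ] CE k) (G := Cn k) (L := ev) (f := N) (x := v) hNd e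
  -- first side
  have e1 : dzb η (fun x => hermi (H x) (vert (N x u u')) (vert y)) v =
      dzb (vert y) (dz (vert u) (fun x => hermi (H x) (vert u') η)) v := by
    have a1 : dzb η (fun x => hermi (H x) (vert (N x u u')) (vert y)) v =
        dzb η (dz (vert u) (fun x => hermi (H x) (vert u') (vert y))) v := by
      refine dzb_congr ?_ η
      filter_upwards [hMv] with x hx
      exact hN.eq x hx u u' y
    have a2 := ((hCOMM hM _ (hs (vert u') (vert y))).2 v hv (vert u) η).2
    have a3 : dz (vert u) (dzb η (fun x => hermi (H x) (vert u') (vert y))) v =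
        dz (vert u) (dzb (vert y) (fun x => hermi (H x) (vert u') η)) v := by
      refine dz_congr ?_ (vert u)
      filter_upwards [hMv] with x hx
      exact (hSYM hH x hx η (vert u') (vert y)).2
    have a4 := ((hCOMM hM _ (hs (vert u') η)).2 v hv (vert u) (vert y)).2
    rw [a1, ← a2, a3, a4]
  have hzd : DifferentiableAt ℝ (dz (vert u) (fun x => hermi (H x) (vert u') η)) v :=
    ((((hCOMM hM _ (hs (vert u') η)).1 (vert u)).1).contDiffAt hMv).differentiableAt (by simp)
  have hHd : ∀ i j, DifferentiableAt ℝ (fun x => H x i j) v := fun i j =>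
    ((hH.smooth i j).contDiffAt hMv).differentiableAt (by simp)
  have hNd2 : DifferentiableAt ℝ (fun x => hermi (H x) (vert (N x u u')) η) v := by
    have hvd : ∀ i, DifferentiableAt ℝ (fun x => (vert (N x u u') : Cn (b + k)) i) v := by
      intro i
      refine Fin.addCases (fun i => ?_) (fun i => ?_) i
      · simp [vert]
      · simp only [vert, Fin.append_right]
        exact (differentiableAt_pi.1 hNud) i
    unfold hermi
    exact DifferentiableAt.fun_sum fun i _ => DifferentiableAt.fun_sum fun j _ =>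
      ((hHd i j).mul (hvd i)).mul_const _
  have e2 : dzb (vert y) (fun x => sff H N x u u' η) v =
      dzb (vert y) (dz (vert u) (fun x => hermi (H x) (vert u') η)) v -
        dzb (vert y) (fun x => hermi (H x) (vert (N x u u')) η) v := by
    unfold sff
    exact dzb_sub' hzd hNd2 (vert y)
  have e3 := dzb_hermi hH hv (fun x => N x u u') hNud (vert y) η
  have e4 := dzb_hermi hH hv (fun x => N x u u') hNud η (vert y)
  have e5 := (hSYM hH v hv (vert y) (vert (N v u u')) η).2
  have e6 : dzb (vert y) (fun x => N x u u') v = 0 := by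
    rw [hNu, dzb_vert hCRE hM hN.smooth hol hv y]
    rfl
  have e7 : hermi (H v) (vert (0 : Cn k)) η = 0 := by
    have : (vert (0 : Cn k) : Cn (b + k)) = 0 := by
      funext i
      refine Fin.addCases (fun i => ?_) (fun i => ?_) i <;> simp [vert]
    rw [this]
    simp [hermi]
  rw [e2, ← e1, e3, e4, e6, e7, hNu, e5]
  ring

end Pool.Agent.Helper57.LinK
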