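import Pool.Agent.Helper45.LinK.GoalsM
import Pool.Agent.Helper95.Lin.Final

/-! # Packet ORBK -/

open Complex Metric Set Filter Topology MeasureTheory
open scoped ContDiff ComplexConjugate ComplexOrder Manifold ENNReal

namespace Pool.Agent.Helper57.LinK

open Pool.Agent.Helper45.LinK Pool.Agent.Helper95.Lin Pool.Agent.Helper16.Abund
  Pool.Agent.Helper92.Orb

universe u

section orb

variable {b k : ℕ} {D : Set (Cn b)} (hD : IsOpen D)

/-- The main theorem for groups in an arbitrary universe. -/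
theorem main_univ (hmain : S_MAINK) (hDc : IsConnected D) (hDb : Bornology.IsBounded D)
    (Γ : Type u) [Group Γ] [MulAction Γ (TorTube hD k)]
    (hΓ : OrbAction (b + k) Γ (TorTube hD k))
    (hpr : ∀ K : Set (TorTube hD k), IsCompact K → {γ : Γ | ∃ y ∈ K, γ • y ∈ K}.Finite)
    (hK : ∃ h, KahlerMetric (b + k) (TorTube hD k) h ∧
      (∀ γ : Γ, InvMetric (b + k) h (fun y : TorTube hD k => γ • y)) ∧ QCFib hD h) :
    ∃ Λ : Cn b → Fin (2 * k) → Fin k → ℂ, LatticeFamily D Λ ∧ ContainsLattice hD Λ Γ := by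
  classical
  -- the image of `Γ` in the permutations of `D × ℂᵏ`
  let Γ' : Subgroup (Equiv.Perm (TorTube hD k)) := (MulAction.toPermHom Γ (TorTube hD k)).range
  have hmem : ∀ γ : Γ, MulAction.toPermHom Γ (TorTube hD k) γ ∈ Γ' := fun γ => ⟨γ, rfl⟩
  have hsm : ∀ (γ : Γ) (y : TorTube hD k),
      ((⟨_, hmem γ⟩ : Γ') • y) = γ • y := fun γ y => rfl
  have hex : ∀ γ' : Γ', ∃ γ : Γ, ∀ y : TorTube hD k, γ' • y = γ • y := by
    rintro ⟨_, γ, rfl⟩
    exact ⟨γ, fun y => rfl⟩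
  have hfin : ∀ U : Set (TorTube hD k), {γ : Γ | ∃ y ∈ U, γ • y ∈ U}.Finite →
      {γ' : Γ' | ∃ y ∈ U, γ' • y ∈ U}.Finite := by
    intro U hU
    refine (hU.image fun γ : Γ => (⟨_, hmem γ⟩ : Γ')).subset ?_
    rintro ⟨_, γ, rfl⟩ ⟨y, hy, hy'⟩
    exact ⟨γ, ⟨y, hy, hy'⟩, rfl⟩
  have hΓ' : OrbAction (b + k) Γ' (TorTube hD k) := by
    refine ⟨fun γ' => ?_, fun x => ?_, ?_⟩
    · obtain ⟨γ, hγ⟩ := hex γ'
      have e : (fun x : TorTube hD k => γ' • x) = fun x => γ • x := funext hγ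
      rw [e]
      exact hΓ.holo γ
    · obtain ⟨U, hU, h⟩ := hΓ.proper x
      exact ⟨U, hU, hfin U h⟩
    · obtain ⟨K, hK, h⟩ := hΓ.cocompact
      refine ⟨K, hK, fun x => ?_⟩
      obtain ⟨γ, hγ⟩ := h x
      exact ⟨⟨_, hmem γ⟩, hγ⟩
  obtain ⟨h, hh, hinv, hqc⟩ := hK
  obtain ⟨Λ, hΛ, hc⟩ := hmain hD hDc hDb Γ' hΓ' (fun K hK => hfin K (hpr K hK))
    ⟨h, hh, fun γ' => by
      obtain ⟨γ, hγ⟩ := hex γ'
      have e : (fun x : TorTube hD k => γ' • x) = fun x => γ • x := funext hγ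
      rw [e]
      exact hinv γ, hqc⟩
  refine ⟨Λ, hΛ, fun m => ?_⟩
  obtain ⟨γ', hγ'⟩ := hc m
  obtain ⟨γ, hγ⟩ := hex γ'
  exact ⟨γ, fun y => by rw [← hγ, hγ']⟩

end orb

/-- Packet ORBK. -/
theorem ORBK (hmain : S_MAINK) : S_ORBK.{u} := by
  intro b k D hD hDc hDb Γ _ _ hΓ hpr hK
  obtain ⟨Λ, hΛ, hc⟩ := main_univ hD hmain hDc hDb Γ hΓ hpr hK
  refine ⟨⟨Λ, hΛ, hc⟩, ?_⟩
  obtain ⟨h, hh, hinv, _⟩ := hK
  have hKT : KahlerTorusFamily hD Λ := by
    refine ⟨h, hh, fun m => ?_⟩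
    obtain ⟨γ, hγ⟩ := hc m
    have e : latShift hD Λ m = fun x : TorTube hD k => γ • x := by
      funext y
      exact (hγ y).symm
    rw [e]
    exact hinv γ
  let _ : MulAction Γ (tube D hD k) := inferInstanceAs (MulAction Γ (TorTube hD k))
  exact orbSemiample_of_torus Pool.Agent.Helper79.Orb.stmtCosetLqOfMassMod
    Pool.Agent.Helper36.Orb.stmtMassModOfFund hD hDc (finiteMass_of_bounded hDb) hΛ hKT hΓ hc

end Pool.Agent.Helper57.LinK
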